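import Pool.Agent.MHP.StmtsC

/-!
# Squad MHP, row CME (helper92): quantification over sets of edges
-/

set_option autoImplicit false

open scoped Classical

namespace Pool.Agent.MHP.H92

open Pool.Agent.HMT Pool.Agent.MHP

theorem vl_cons (K A : PG) {a b c : ℕ} (x : Fin a → VG K A) (X : Fin b → Set (VG K A))
    (F : Fin c → Set (Sym2 (VG K A))) (T : Set (Sym2 (VG K A))) :
    vl K A x X (Fin.cons T F : Fin (c + 1) → Set (Sym2 (VG K A))) =
      ⟨(vl K A x X F).x, (vl K A x X F).X,
        Fin.cons {e | Sym2.map Sum.inl e ∈ T} (vl K A x X F).F⟩ := by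
  unfold vl
  refine congrArg (Val.mk _ _) ?_
  funext k
  refine Fin.cases ?_ (fun k => ?_) k
  · rfl
  · rfl

theorem vr_cons (K A : PG) {a b c : ℕ} (x : Fin a → VG K A) (X : Fin b → Set (VG K A))
    (F : Fin c → Set (Sym2 (VG K A))) (T : Set (Sym2 (VG K A))) :
    vr K A x X (Fin.cons T F : Fin (c + 1) → Set (Sym2 (VG K A))) =
      ⟨(vr K A x X F).x, (vr K A x X F).X,
        Fin.cons {e | Sym2.map (emb A.r K.r) e ∈ T} (vr K A x X F).F⟩ := by
  unfold vr
  refine congrArg (Val.mk _ _) ?_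
  funext k
  refine Fin.cases ?_ (fun k => ?_) k
  · rfl
  · rfl

/-- the restriction to the left part -/
theorem left_eq (K A : PG) (T : Set (Sym2 K.V)) (T' : Set (Sym2 A.V)) (hT' : T' ⊆ A.G.edgeSet) :
    {e : Sym2 K.V | Sym2.map Sum.inl e ∈
      (Sym2.map Sum.inl '' T ∪ Sym2.map (emb A.r K.r) '' T' : Set (Sym2 (VG K A)))} = T := by
  ext e
  simp only [Set.mem_setOf_eq, Set.mem_union, Set.mem_image]
  constructor
  · rintro (⟨e', he', h⟩ | ⟨e', he', h⟩)
    · exact (Sym2.map.injective Sum.inl_injective h) ▸ he'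
    · exfalso
      revert he' h
      refine Sym2.inductionOn₂ e e' ?_
      intro p q u v he' h
      have hadj : A.G.Adj u v := hT' he'
      rw [Sym2.map_mk, Sym2.map_mk] at h
      rcases Sym2.eq_iff.1 h with ⟨h1, h2⟩ | ⟨h1, h2⟩
      · have h3 := ((inl_eq_emb A.r K.r p u).1 h1.symm).2
        have h4 := ((inl_eq_emb A.r K.r q v).1 h2.symm).2
        rw [h3, h4] at hadj
        exact A.G.irrefl hadj
      · have h3 := ((inl_eq_emb A.r K.r q u).1 h1.symm).2
        have h4 := ((inl_eq_emb A.r K.r p v).1 h2.symm).2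
        rw [h3, h4] at hadj
        exact A.G.irrefl hadj
  · intro he
    exact Or.inl ⟨e, he, rfl⟩

/-- the restriction to the right part -/
theorem right_eq (K A : PG) (T : Set (Sym2 K.V)) (T' : Set (Sym2 A.V)) (hT : T ⊆ K.G.edgeSet) :
    {e : Sym2 A.V | Sym2.map (emb A.r K.r) e ∈
      (Sym2.map Sum.inl '' T ∪ Sym2.map (emb A.r K.r) '' T' : Set (Sym2 (VG K A)))} = T' := by
  ext e
  simp only [Set.mem_setOf_eq, Set.mem_union, Set.mem_image]
  constructor
  · rintro (⟨e', he', h⟩ | ⟨e', he', h⟩)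
    · exfalso
      revert he' h
      refine Sym2.inductionOn₂ e e' ?_
      intro u v p q he' h
      have hadj : K.G.Adj p q := hT he'
      rw [Sym2.map_mk, Sym2.map_mk] at h
      rcases Sym2.eq_iff.1 h with ⟨h1, h2⟩ | ⟨h1, h2⟩
      · have h3 := ((inl_eq_emb A.r K.r p u).1 h1).1
        have h4 := ((inl_eq_emb A.r K.r q v).1 h2).1
        rw [h3, h4] at hadj
        exact K.G.irrefl hadj
      · have h3 := ((inl_eq_emb A.r K.r p v).1 h1).1
        have h4 := ((inl_eq_emb A.r K.r q u).1 h2).1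
        rw [h3, h4] at hadj
        exact K.G.irrefl hadj
    · exact (Sym2.map.injective (emb_injective A.r K.r) h) ▸ he'
  · intro he
    exact Or.inr ⟨e, he, rfl⟩

/-- **CME** -/
theorem cme : CmeStmt := by
  rintro a b c φ ⟨Q, hQ, τ, R, h⟩
  refine ⟨Set Q, inferInstance, fun A v => {q | ∃ T : Set (Sym2 A.V), T ⊆ A.G.edgeSet ∧
    q = τ A ⟨v.x, v.X, Fin.cons T v.F⟩}, fun s t => ∃ q ∈ s, ∃ q' ∈ t, R q q', ?_⟩
  intro K A x X F hF
  have hcons : ∀ T : Set (Sym2 (VG K A)), T ⊆ (gl K A).edgeSet →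
      (Sat (gl K A) φ x X (Fin.cons T F) ↔
        R (τ K ⟨(vl K A x X F).x, (vl K A x X F).X,
            Fin.cons {e | Sym2.map Sum.inl e ∈ T} (vl K A x X F).F⟩)
          (τ A ⟨(vr K A x X F).x, (vr K A x X F).X,
            Fin.cons {e | Sym2.map (emb A.r K.r) e ∈ T} (vr K A x X F).F⟩)) := by
    intro T hT
    rw [← vl_cons, ← vr_cons]
    refine h K A x X (Fin.cons T F) ?_
    intro k
    refine Fin.cases ?_ (fun k => ?_) k
    · exact hT
    · exact hF k
  constructor
  · rintro ⟨T, hT, hS⟩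
    refine ⟨_, ⟨{e | Sym2.map Sum.inl e ∈ T}, ?_, rfl⟩, _,
      ⟨{e | Sym2.map (emb A.r K.r) e ∈ T}, ?_, rfl⟩, (hcons T hT).1 hS⟩
    · intro e
      refine Sym2.inductionOn e ?_
      intro u v he
      exact hT he
    · intro e
      refine Sym2.inductionOn e ?_
      intro u v he
      exact (glue_adj_emb K.G K.r A.G A.r u v).1 (hT he)
  · rintro ⟨_, ⟨T, hT, rfl⟩, _, ⟨T', hT', rfl⟩, hR⟩
    refine ⟨Sym2.map Sum.inl '' T ∪ Sym2.map (emb A.r K.r) '' T', ?_, ?_⟩
    · rintro e (⟨e', he', rfl⟩ | ⟨e', he', rfl⟩)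
      · revert he'
        refine Sym2.inductionOn e' ?_
        intro u v he
        exact hT he
      · revert he'
        refine Sym2.inductionOn e' ?_
        intro u v he
        exact (glue_adj_emb K.G K.r A.G A.r u v).2 (hT' he)
    · rw [hcons]
      · rw [left_eq K A T T' hT', right_eq K A T T' hT]
        exact hR
      · rintro e (⟨e', he', rfl⟩ | ⟨e', he', rfl⟩)
        · revert he'
          refine Sym2.inductionOn e' ?_
          intro u v he
          exact hT he
        · revert he'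
          refine Sym2.inductionOn e' ?_
          intro u v he
          exact (glue_adj_emb K.G K.r A.G A.r u v).2 (hT' he)

end Pool.Agent.MHP.H92
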