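import Pool.Agent.MHP.Stmts

/-!
# Squad MHP, row CNG (helper92): rules for `tog`
-/

set_option autoImplicit false

namespace Pool.Agent.MHP.H92

open Pool.Agent.HMT Pool.Agent.MHP

/-- **CNG** -/
theorem cng : CngStmt := by
  intro V _ M _ C
  refine ⟨?_, ?_, ?_, ?_, ?_⟩
  · intro F G h
    unfold tog
    refine Finset.sum_congr rfl fun Z hZ => ?_
    rw [h]
    intro a b hab
    have h1 : s(a, b) ∈ (Z : Set (Sym2 V)) := ((SimpleGraph.fromEdgeSet_adj _).1 hab).1
    have h2 : s(a, b) ∈ (Set.toFinite C.edgeSet).toFinset :=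
      Finset.mem_powerset.1 hZ (Finset.mem_coe.1 h1)
    rw [Set.Finite.mem_toFinset] at h2
    exact h2
  · intro F n
    unfold tog
    rw [Finset.smul_sum]
    exact Finset.sum_congr rfl fun Z _ => smul_comm _ _ _
  · intro F G
    unfold tog
    rw [← Finset.sum_add_distrib]
    exact Finset.sum_congr rfl fun Z _ => smul_add _ _ _
  · intro L s F
    unfold tog
    rw [Finset.sum_comm]
    exact Finset.sum_congr rfl fun Z _ => Finset.smul_sum
  · intro W _ D F
    unfold tog
    simp only [Finset.smul_sum]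
    rw [Finset.sum_comm]
    exact Finset.sum_congr rfl fun Z _ => Finset.sum_congr rfl fun Y _ => smul_comm _ _ _

end Pool.Agent.MHP.H92
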